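import Pool.Agent.helper33.WD.Defs
import Pool.Agent.helper30.LD.J

/-!
Zeros of the Riemann zeta function in unit windows (all heights), and their distance to the pole.
-/

set_option autoImplicit false

namespace Pool.Agent.helper33.WD

open Complex MeasureTheory Set
open Pool.Agent.helper6.LD (zc zeros_finite h30_zc_eq zc_window)

theorem ZN_re_le {ρ : ℂ} (h : riemannZeta ρ = 0) : ρ.re ≤ 1 := by
  by_contra h2
  push Not at h2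
  exact riemannZeta_ne_zero_of_one_le_re h2.le h

theorem ZN_bdd (a b : ℝ) :
    Bornology.IsBounded {ρ : ℂ | 1 / 2 ≤ ρ.re ∧ ρ.re ≤ 1 ∧ a ≤ ρ.im ∧ ρ.im ≤ b} := by
  apply (Metric.isBounded_closedBall (x := (0 : ℂ)) (r := 1 + (|a| + |b|))).subset
  rintro ρ ⟨h1, h2, h3, h4⟩
  rw [Metric.mem_closedBall, dist_zero_right]
  refine (Complex.norm_le_abs_re_add_abs_im ρ).trans ?_
  have e1 : |ρ.re| ≤ 1 := by rw [abs_le]; constructor <;> linarith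
  have e2 : |ρ.im| ≤ |a| + |b| := by
    rw [abs_le]
    constructor
    · have := neg_abs_le a
      have := abs_nonneg b
      linarith
    · have := le_abs_self b
      have := abs_nonneg a
      linarith
  linarith

theorem zeros_window : ∃ C : ℝ, 0 < C ∧ ∀ (t : ℝ) (S : Finset ℂ), 0 ≤ t →
    (∀ ρ ∈ S, riemannZeta ρ = 0 ∧ 1 / 2 ≤ ρ.re ∧ t ≤ ρ.im ∧ ρ.im ≤ t + 1) →
    ∑ ρ ∈ S, (analyticOrderNatAt riemannZeta ρ : ℝ) ≤ C * Real.log (t + 3) := by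
  obtain ⟨C, hC, hw⟩ := zc_window
  set K : Set ℂ := {ρ : ℂ | 1 / 2 ≤ ρ.re ∧ ρ.re ≤ 1 ∧ (0 : ℝ) ≤ ρ.im ∧ ρ.im ≤ 2} with hK
  have hzK : (0 : ℝ) ≤ zc K := Nat.cast_nonneg _
  have key : ∀ (S : Finset ℂ) (A : Set ℂ), Bornology.IsBounded A →
      (∀ ρ ∈ S, riemannZeta ρ = 0 ∧ ρ ∈ A) →
      ∑ ρ ∈ S, (analyticOrderNatAt riemannZeta ρ : ℝ) ≤ zc A := by
    intro S A hA hS
    rw [h30_zc_eq hA]
    push_cast
    apply Finset.sum_le_sum_of_subset_of_nonneg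
    · intro ρ hρ
      rw [Set.Finite.mem_toFinset]
      exact ⟨(hS ρ hρ).2, (hS ρ hρ).1⟩
    · intro _ _ _
      positivity
  refine ⟨C + zc K, by positivity, ?_⟩
  intro t S ht hS
  have hlog1 : 1 ≤ Real.log (t + 3) := by
    rw [Real.le_log_iff_exp_le (by linarith)]
    have := Real.exp_one_lt_d9
    linarith
  rcases le_or_gt 1 t with h1 | h1
  · have hb : Bornology.IsBounded {ρ : ℂ | 1 / 2 ≤ ρ.re ∧ ρ.re ≤ 1 ∧ t ≤ ρ.im ∧ ρ.im ≤ t + 1} :=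
      ZN_bdd _ _
    have e1 := key S _ hb (fun ρ hρ => ⟨(hS ρ hρ).1, (hS ρ hρ).2.1, ZN_re_le (hS ρ hρ).1,
      (hS ρ hρ).2.2.1, (hS ρ hρ).2.2.2⟩)
    have e2 : zc {ρ : ℂ | 1 / 2 ≤ ρ.re ∧ ρ.re ≤ 1 ∧ t ≤ ρ.im ∧ ρ.im ≤ t + 1} =
        zc {ρ : ℂ | 1 / 2 ≤ ρ.re ∧ t ≤ ρ.im ∧ ρ.im ≤ t + 1} := by
      apply Pool.Agent.helper6.LD.h30_zc_congr
      intro ρ hρ
      constructor
      · rintro ⟨a1, _, a2, a3⟩
        exact ⟨a1, a2, a3⟩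
      · rintro ⟨a1, a2, a3⟩
        exact ⟨a1, ZN_re_le hρ, a2, a3⟩
    rw [e2] at e1
    have e3 := hw t h1
    have e4 : Real.log (t + 2) ≤ Real.log (t + 3) := Real.log_le_log (by linarith) (by linarith)
    nlinarith
  · have e1 := key S K (ZN_bdd _ _) (fun ρ hρ => ⟨(hS ρ hρ).1, (hS ρ hρ).2.1, ZN_re_le (hS ρ hρ).1,
      by linarith [(hS ρ hρ).2.2.1], by linarith [(hS ρ hρ).2.2.2]⟩)
    nlinarith

theorem zeros_dist_one : ∃ c : ℝ, 0 < c ∧ ∀ ρ : ℂ, riemannZeta ρ = 0 → 1 / 2 ≤ ρ.re → ρ.re ≤ 1 →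
    0 ≤ ρ.im → c * ‖ρ‖ ≤ ‖ρ - 1‖ := by
  have hfin := zeros_finite (ZN_bdd 0 1)
  have hcl := hfin.isClosed
  have h1 : (1 : ℂ) ∉ {ρ : ℂ | ρ ∈ {ρ : ℂ | 1 / 2 ≤ ρ.re ∧ ρ.re ≤ 1 ∧ 0 ≤ ρ.im ∧ ρ.im ≤ 1} ∧
      riemannZeta ρ = 0} := fun h => riemannZeta_one_ne_zero h.2
  obtain ⟨δ, hδ, hball⟩ := Metric.isOpen_iff.mp hcl.isOpen_compl 1 h1
  refine ⟨min (1 / 2) (δ / 2), by positivity, ?_⟩
  intro ρ h0 h2 h3 h4
  have hn : ‖ρ‖ ≤ 1 + ρ.im := by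
    refine (Complex.norm_le_abs_re_add_abs_im ρ).trans ?_
    rw [abs_of_nonneg (by linarith), abs_of_nonneg h4]
    linarith
  have hc0 : (0 : ℝ) ≤ min (1 / 2) (δ / 2) := by positivity
  rcases le_or_gt 1 ρ.im with h5 | h5
  · have e1 : ρ.im ≤ ‖ρ - 1‖ := by
      have := Complex.abs_im_le_norm (ρ - 1)
      simp only [sub_im, one_im, sub_zero] at this
      exact (le_abs_self _).trans this
    have e2 : min (1 / 2) (δ / 2) * ‖ρ‖ ≤ 1 / 2 * ‖ρ‖ :=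
      mul_le_mul_of_nonneg_right (min_le_left _ _) (norm_nonneg _)
    linarith
  · have e1 : δ ≤ ‖ρ - 1‖ := by
      by_contra h
      push Not at h
      have : ρ ∈ Metric.ball (1 : ℂ) δ := by
        rw [Metric.mem_ball, dist_eq_norm]
        exact h
      exact hball this ⟨⟨h2, h3, h4, h5.le⟩, h0⟩
    have e2 : min (1 / 2) (δ / 2) * ‖ρ‖ ≤ δ / 2 * ‖ρ‖ :=
      mul_le_mul_of_nonneg_right (min_le_right _ _) (norm_nonneg _)
    have e3 : δ / 2 * ‖ρ‖ ≤ δ / 2 * 2 := mul_le_mul_of_nonneg_left (by linarith) (by positivity)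
    linarith

end Pool.Agent.helper33.WD
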